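import Mathlib
import Pool.Agent.Q281.SM.Example
import Pool.Agent.Q281.SM.Units

/-!
# A non-sofic monoid with sofic units and sofic orbit quotients
-/

namespace Pool.Agent.Results.MP_3452f1_al.SoficQuotientsNotSofic

open Q281.SM

/-- There is a non-sofic monoid `M` whose `J`-class of the identity is the group of units, whose
group of units is sofic, and for which every quotient of the group of units by the pointwise
stabiliser of an orbit `m U(M)` (`m ∈ M`) is sofic. -/
theorem result : ∃ (M : Type) (_ : Monoid M),
    JOne M = {m | IsUnit m} ∧ IsSofic Mˣ ∧ (∀ m : M, IsSofic (Mˣ ⧸ orbStab m)) ∧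
      ¬ IsSofic M := by
  have hU : IsSofic (NMon H0)ˣ := (isSofic_of_locSep (locSep X0)).of_mulEquiv (nUnits H0)
  exact ⟨NMon H0, inferInstance, nJOne, hU, isSofic_quot exists_not_mem hU, not_sofic_NMon⟩

end Pool.Agent.Results.MP_3452f1_al.SoficQuotientsNotSofic
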